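import Pool.Agent.H.MP_bef260_an.B

set_option autoImplicit false

namespace Pool.Agent.Results.MP_bef260_an.Yes
open scoped ENNReal
open MeasureTheory Real

/-- The n-th Hermite function. -/
noncomputable def h (n : ℕ) (t : ℝ) : ℝ :=
  (-1) ^ n * (2 ^ (1 / 4 : ℝ) / √(n.factorial * (2 * π) ^ n * 2 ^ n)) * exp (π * t ^ 2) *
    iteratedDeriv n (fun y => exp (-2 * π * y ^ 2)) t

/-- The inner product of f with the time-frequency shift of g by z. -/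
noncomputable def V (g : ℝ → ℝ) (f : ℝ → ℂ) (z : ℝ × ℝ) : ℂ :=
  ∫ t, f t * (starRingEnd ℂ) (Complex.exp (2 * π * Complex.I * z.2 * t) * g (t - z.1))

open Pool.Agent.H.MP_bef260_an in
theorem result (n : ℕ) :
    ∃ (α : ℝ) (z : Fin (2 * n + 1) → ℝ × ℝ) (Γ : Set (ℝ × ℝ)), 0 < α ∧
      (∀ m m', (∃ k l : ℤ, z m = z m' + (α * k, l / α)) → m = m') ∧
      Γ = {γ | ∃ m, ∃ k l : ℤ, γ = z m + (α * k, l / α)} ∧
      (∃ δ > 0, ∀ γ ∈ Γ, ∀ γ' ∈ Γ, γ ≠ γ' → δ ≤ dist γ γ') ∧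
      ∀ A > 0, ∃ f : ℝ → ℂ, MemLp f 2 volume ∧
        ∑' γ : Γ, ‖Yes.V (h n) f γ‖ₑ ^ 2 < ENNReal.ofReal A * ∫⁻ t, ‖f t‖ₑ ^ 2 := by
  obtain ⟨c1, K, hK⟩ := bnd n ((-1) ^ n * (2 ^ (1 / 4 : ℝ) / √(n.factorial * (2 * π) ^ n * 2 ^ n)))
  obtain ⟨t, h1, h2⟩ := alt n
  refine fin (g := h n) c1 hK n (fun t => ?_) t ((-1) ^ n) h1 fun i hi => ?_
  · have := ph_par n t
    simp only [h, ph, neg_sq] at this ⊢
    rw [this]
    ring
  · have e : ((-1 : ℝ) ^ n) ^ 2 = 1 := by rw [← pow_mul, mul_comm, pow_mul]; simp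
    have := mul_pos (h2 i hi) (show 0 < 2 ^ (1 / 4 : ℝ) / √(n.factorial * (2 * π) ^ n * 2 ^ n) *
      exp (π * t i ^ 2) * ((-1 : ℝ) ^ n) ^ 2 by rw [e]; positivity)
    refine this.trans_eq ?_
    simp only [h, ph]
    ring

end Pool.Agent.Results.MP_bef260_an.Yes
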